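import Pool.Agent.QuadSys.Top
import Pool.Agent.MXC.Defs

/-!
# One-sided Razborov-Smolensky bound on a block cube, for functions with approximations

This is the bound of `QuadSys.Top` with the circuit replaced by a function which has
approximations of low degree on all cubes (`Apx`).
-/

set_option autoImplicit false
set_option linter.unusedSectionVars false

namespace Pool.Agent.MQX

open Finset Pool.Agent.RS Pool.Agent.MXC Pool.Agent.QuadSys Pool.Agent.Helper21.LinSys

/-- If a fraction `1 / σ` of the middle slice of a `2 M`-element set consists of minimal true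
points of a function with an approximation of low degree, then the error is large. -/
theorem cube_center {U : Type} [Fintype U] [DecidableEq U] {p : ℕ} [Fact p.Prime]
    (f : Finset U → Bool) {s M σ ℓ : ℕ} (P : Finset U → ZMod p) (E : Finset (Finset U)) (D : ℕ)
    (hP : P ∈ lowDeg (ZMod p) U D) (hE : E.card * p ^ ℓ ≤ s * 2 ^ Fintype.card U)
    (hPE : ∀ z, z ∉ E → P z = ind p (f z))
    (hU : Fintype.card U = 2 * M)
    (S : Finset (Finset U)) (hS : ∀ z ∈ S, f z = true ∧ M ≤ z.card ∧
      ∀ y, y ⊂ z → ¬ f y = true)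
    (hcard : (2 * M).choose M ≤ σ * S.card) (hdeg : 2 * (D + 1) ^ 2 ≤ M) :
    p ^ ℓ ≤ 8 * M ^ 2 * σ * s := by
  classical
  have hM : 0 < M := by
    have : 0 < 2 * (D + 1) ^ 2 := by positivity
    omega
  have hDM : D < M := by nlinarith
  have h1 := one_sided_min (F := ZMod p) hDM (fun z => f z = true) P hP E
    (fun z hz => by
      rw [hPE z hz]
      rfl) S hS
  -- the size of the ball
  have h2 : (2 * M).choose M ≤
      2 * ((univ : Finset (Finset U)).filter fun z => z.card ≤ M - 1 - D).card := by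
    refine (choose_half M (D + 1) hdeg).trans (Nat.mul_le_mul_left _ ?_)
    have h3 : (2 * M).choose (M - (D + 1)) =
        (Finset.powersetCard (M - (D + 1)) (univ : Finset U)).card := by
      rw [Finset.card_powersetCard, Finset.card_univ, hU]
    rw [h3]
    refine Finset.card_le_card fun z hz => ?_
    rw [Finset.mem_powersetCard] at hz
    rw [mem_filter]
    exact ⟨mem_univ z, by rw [hz.2]; omega⟩
  rw [hU] at h1 hE
  have h4 : (4 : ℕ) ^ M ≤ 2 * M * (2 * M).choose M := by
    have := Nat.four_pow_le_two_mul_self_mul_centralBinom M hM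
    rwa [Nat.centralBinom] at this
  have h5 : (2 : ℕ) ^ (2 * M) = 4 ^ M := by rw [pow_mul]; norm_num
  rw [h5] at h1 hE
  set B := ((univ : Finset (Finset U)).filter fun z => z.card ≤ M - 1 - D).card with hB
  set c := (2 * M).choose M with hc
  -- combine
  have h6 : (4 ^ M * 4 ^ M) * p ^ ℓ ≤ (8 * M ^ 2 * σ * s) * (4 ^ M * 4 ^ M) := by
    calc (4 ^ M * 4 ^ M) * p ^ ℓ ≤ ((2 * M * c) * (2 * M * c)) * p ^ ℓ :=
          Nat.mul_le_mul_right _ (Nat.mul_le_mul h4 h4)
      _ = (4 * M ^ 2) * (c * c) * p ^ ℓ := by ring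
      _ ≤ (4 * M ^ 2) * ((σ * S.card) * (2 * B)) * p ^ ℓ :=
          Nat.mul_le_mul_right _ (Nat.mul_le_mul_left _ (Nat.mul_le_mul hcard h2))
      _ = (8 * M ^ 2 * σ) * (S.card * B) * p ^ ℓ := by ring
      _ ≤ (8 * M ^ 2 * σ) * (E.card * 4 ^ M) * p ^ ℓ :=
          Nat.mul_le_mul_right _ (Nat.mul_le_mul_left _ h1)
      _ = (8 * M ^ 2 * σ) * 4 ^ M * (E.card * p ^ ℓ) := by ring
      _ ≤ (8 * M ^ 2 * σ) * 4 ^ M * (s * 4 ^ M) := Nat.mul_le_mul_left _ hE
      _ = (8 * M ^ 2 * σ * s) * (4 ^ M * 4 ^ M) := by ring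
  rw [mul_comm] at h6
  exact Nat.le_of_mul_le_mul_right h6 (by positivity)

section Cube

variable {p : ℕ} [Fact p.Prime] {s M : ℕ} {ι : Type}

/-- If the minimal true points of a function with approximations, on a cube of subsets, are dense,
then the dimension is small. -/
theorem cube_dense (d : ℕ) (f : (ι → Bool) → Bool) (hf : Apx p d s f)
    (φ : Finset (Fin M) → ι → Bool) (hφ : SMap φ)
    (S : Finset (Finset (Fin M))) (hS : ∀ z ∈ S, f (φ z) = true ∧
      ∀ y, y ⊂ z → ¬ f (φ y) = true)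
    (μ : ℕ) (hμ : 1 ≤ μ) (hcard : 2 ^ M ≤ 2 ^ μ * S.card) (hM : M + 1 ≤ 2 ^ μ)
    (hs : s ≤ 2 ^ μ) :
    M ≤ μ * (2 * (((p - 1) * (5 * μ + 4)) ^ d + 1) ^ 2 + 2) := by
  classical
  by_contra hcon
  push Not at hcon
  set N := 2 * (((p - 1) * (5 * μ + 4)) ^ d + 1) ^ 2 with hN
  have hp2 := (Fact.out : p.Prime).two_le
  -- a popular cardinality
  obtain ⟨h, hhM, hh⟩ : ∃ h ∈ range (M + 1),
      2 ^ M ≤ 2 ^ (2 * μ) * (S.filter fun z => z.card = h).card := by
    by_contra hno
    push Not at hno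
    have h1 : S.card = ∑ h ∈ range (M + 1), (S.filter fun z => z.card = h).card := by
      refine Finset.card_eq_sum_card_fiberwise fun z _ => ?_
      have := Finset.card_le_univ z
      rw [Fintype.card_fin] at this
      rw [Finset.mem_coe, Finset.mem_range]
      omega
    have h2 : 2 ^ (2 * μ) * S.card < (M + 1) * 2 ^ M := by
      rw [h1, Finset.mul_sum]
      calc ∑ h ∈ range (M + 1), 2 ^ (2 * μ) * (S.filter fun z => z.card = h).card
          < ∑ _h ∈ range (M + 1), 2 ^ M :=
            Finset.sum_lt_sum_of_nonempty ⟨0, by simp⟩ fun h hh => hno h hh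
        _ = (M + 1) * 2 ^ M := by simp
    have h3 : (M + 1) * 2 ^ M ≤ 2 ^ (2 * μ) * S.card := by
      calc (M + 1) * 2 ^ M ≤ 2 ^ μ * (2 ^ μ * S.card) := Nat.mul_le_mul hM hcard
        _ = _ := by rw [two_mul, pow_add]; ring
    omega
  rw [mem_range] at hhM
  set T := S.filter fun z => z.card = h with hT
  have hTc : T.card ≤ M.choose h := by
    have : T ⊆ powersetCard h univ := fun z hz =>
      mem_powersetCard.2 ⟨subset_univ _, (mem_filter.1 hz).2⟩
    refine (card_le_card this).trans ?_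
    rw [card_powersetCard, card_univ, Fintype.card_fin]
  have hchoose : 2 ^ M ≤ 2 ^ (2 * μ) * M.choose h := hh.trans (Nat.mul_le_mul_left _ hTc)
  -- the popular cardinality is not extreme
  have hext : ∀ j, M.choose h ≤ M ^ j → N ≤ j := by
    intro j hj
    by_contra hlt
    push Not at hlt
    have h1 : 2 ^ M ≤ 2 ^ (μ * (N + 2)) := by
      calc 2 ^ M ≤ 2 ^ (2 * μ) * M ^ j := hchoose.trans (Nat.mul_le_mul_left _ hj)
        _ ≤ 2 ^ (2 * μ) * (2 ^ μ) ^ j :=
          Nat.mul_le_mul_left _ (Nat.pow_le_pow_left (by omega) _)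
        _ = 2 ^ (μ * (j + 2)) := by rw [← pow_mul, ← pow_add]; congr 1; ring
        _ ≤ 2 ^ (μ * (N + 2)) := Nat.pow_le_pow_right (by omega)
          (Nat.mul_le_mul_left _ (by omega))
    have h2 := (Nat.pow_le_pow_iff_right (by omega : 1 < 2)).1 h1
    omega
  have hNh : N ≤ h := hext h (Nat.choose_le_pow M h)
  have hNMh : N + h ≤ M := by
    have h1 := hext (M - h) (by
      rw [← Nat.choose_symm (by omega : h ≤ M)]
      exact Nat.choose_le_pow M (M - h))
    omega
  -- recentre
  obtain ⟨A, Y, hAY, hA, hY, hAc⟩ := recenter (J := Fin M) h N hNh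
    (by rw [Fintype.card_fin]; exact hNMh) T (fun z hz => (mem_filter.1 hz).2) (2 ^ (2 * μ)) (by
      rw [Fintype.card_fin]
      exact (Nat.choose_le_two_pow M h).trans hh)
  let U := {B // B ∈ A}
  let eU : U ↪ Fin M := Function.Embedding.subtype _
  have hUc : Fintype.card U = 2 * N := by rw [Fintype.card_coe]; exact hA
  have hdisj : ∀ z : Finset U, Disjoint Y (z.map eU) := by
    intro z
    refine hAY.symm.mono_right ?_
    intro B hB
    obtain ⟨u, _, rfl⟩ := mem_map.1 hB
    exact u.2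
  let Z : Finset U → Finset (Fin M) := fun z => Y ∪ z.map eU
  have hZmem : ∀ (u : U) z, (u : Fin M) ∈ Z z ↔ u ∈ z := by
    intro u z
    constructor
    · intro hu
      rcases mem_union.1 hu with h1 | h1
      · exact absurd u.2 (Finset.disjoint_right.1 hAY h1)
      · obtain ⟨w, hw, hwu⟩ := mem_map.1 h1
        have : w = u := Subtype.ext hwu
        rwa [← this]
    · intro hu
      exact mem_union_right _ (mem_map.2 ⟨u, hu, rfl⟩)
  have hZss : ∀ y z, y ⊂ z → Z y ⊂ Z z := by
    intro y z hyz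
    rw [Finset.ssubset_iff_subset_ne] at hyz ⊢
    refine ⟨union_subset_union_right (map_subset_map.2 hyz.1), fun he => hyz.2 ?_⟩
    ext u
    rw [← hZmem u y, ← hZmem u z, he]
  let S' : Finset (Finset U) := univ.filter fun z => z.card = N ∧ Z z ∈ T
  have hSc : ((A.powersetCard N).filter fun z => Y ∪ z ∈ T).card ≤ S'.card := by
    have h1 : ((A.powersetCard N).filter fun z => Y ∪ z ∈ T) ⊆ S'.image fun z => z.map eU := by
      intro z hz
      rw [mem_filter, mem_powersetCard] at hz
      have e1 : (z.subtype (· ∈ A)).map eU = z := by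
        refine Finset.subtype_map_of_mem fun B hB => hz.1.1 hB
      rw [mem_image]
      refine ⟨z.subtype (· ∈ A), ?_, e1⟩
      rw [mem_filter]
      refine ⟨mem_univ _, ?_, ?_⟩
      · rw [← card_map eU, e1]; exact hz.1.2
      · change Y ∪ (z.subtype (· ∈ A)).map eU ∈ T
        rw [e1]; exact hz.2
    exact (card_le_card h1).trans card_image_le
  have hSc' : (2 * N).choose N ≤ 2 ^ (2 * μ) * S'.card :=
    hAc.trans (Nat.mul_le_mul_left _ hSc)
  have hφ' : SMap fun z : Finset U => φ (Z z) := by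
    intro v
    rcases hφ v with ⟨b, hb⟩ | ⟨i, b, hi⟩
    · exact Or.inl ⟨b, fun z => hb _⟩
    · by_cases hiA : i ∈ A
      · refine Or.inr ⟨⟨i, hiA⟩, b, fun z => ?_⟩
        have e := hZmem ⟨i, hiA⟩ z
        change φ (Z z) v = _
        rw [hi]
        congr 1
        exact decide_eq_decide.2 e
      · refine Or.inl ⟨xor b (decide (i ∈ Y)), fun z => ?_⟩
        have e : i ∈ Z z ↔ i ∈ Y := by
          constructor
          · intro h1
            rcases mem_union.1 h1 with h2 | h2
            · exact h2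
            · obtain ⟨w, _, hwu⟩ := mem_map.1 h2
              exact absurd (hwu ▸ w.2) hiA
          · exact fun h1 => mem_union_left _ h1
        change φ (Z z) v = _
        rw [hi, decide_eq_decide.2 e]
  obtain ⟨P, E, hP, hE, hPE⟩ := hf U _ hφ' (5 * μ + 4) (by omega)
  have hbound := cube_center (p := p) (fun z => f (φ (Z z))) (M := N)
    (σ := 2 ^ (2 * μ)) (ℓ := 5 * μ + 4) P E _ hP hE hPE hUc S' (by
      intro z hz
      rw [mem_filter] at hz
      have h1 := hS _ (mem_filter.1 hz.2.2).1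
      exact ⟨h1.1, hz.2.1.ge, fun y hy => h1.2 _ (hZss _ _ hy)⟩) hSc' hN.ge
  have hN2 : N ≤ 2 ^ μ := by omega
  have h1 : 8 * N ^ 2 * 2 ^ (2 * μ) * s ≤ 2 ^ (5 * μ + 3) := by
    calc 8 * N ^ 2 * 2 ^ (2 * μ) * s ≤ 8 * (2 ^ μ) ^ 2 * 2 ^ (2 * μ) * 2 ^ μ :=
          Nat.mul_le_mul (Nat.mul_le_mul_right _ (Nat.mul_le_mul_left _
            (Nat.pow_le_pow_left hN2 2))) hs
      _ = 2 ^ (5 * μ + 3) := by
        rw [← pow_mul, show 8 = 2 ^ 3 by norm_num, ← pow_add, ← pow_add, ← pow_add]
        congr 1; ring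
  have h2 : 2 ^ (5 * μ + 4) ≤ p ^ (5 * μ + 4) := Nat.pow_le_pow_left hp2 _
  have h3 : 2 ^ (5 * μ + 3) < 2 ^ (5 * μ + 4) := Nat.pow_lt_pow_right (by omega) (by omega)
  omega

end Cube

/-- **One-sided Razborov-Smolensky bound on a block cube.** On a block cube with nonzero block
weights, a function with approximations whose true points have weight at least `h` is true on a
dense set of points of weight `h` only if the dimension is small. -/
theorem mqx_cube (p : ℕ) [Fact p.Prime] (d : ℕ) : ∃ K : ℕ, ∀ {n M : ℕ} (X : ℕ)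
    (f : (Fin n → Bool) → Bool) (Q : BCube n M) (h : ℤ), 1 ≤ X → Apx p d (2 ^ X) f →
    (∀ k, Q.pw (fun _ => 1) k ≠ 0) →
    (∀ t, f (Q.emb t) = true → h ≤ wsum (fun _ => 1) (Q.emb t)) →
    ∀ T : Finset (Fin M → Bool),
      (∀ t ∈ T, f (Q.emb t) = true ∧ wsum (fun _ => 1) (Q.emb t) = h) →
      2 ^ M ≤ 2 ^ X * T.card → M ≤ pb K X := by
  obtain ⟨c, hc1, hc⟩ := dense_num p d
  obtain ⟨L, hL⟩ := exists_pow_lt c (2 * d + 1)
  refine ⟨c * (L + 1) * 2 + (2 * d + 1), ?_⟩
  intro n M X f Q h hX hf hw hrej T hT hcard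
  classical
  -- orient the blocks
  let w : Fin M → ℤ := Q.pw fun _ => 1
  let neg : Fin M → Bool := fun k => decide (w k < 0)
  let pt : Finset (Fin M) → Fin M → Bool := fun z k => xor (neg k) (decide (k ∈ z))
  have hpt : ∀ z, wsum w (pt z) = wsum w neg + ∑ k ∈ z, |w k| := by
    intro z
    unfold wsum
    rw [← Finset.sum_filter_add_sum_filter_not univ (fun k => k ∈ z),
      ← Finset.sum_filter_add_sum_filter_not univ (fun k => k ∈ z)
        (f := fun k => w k * bit (neg k))]
    have h1 : ∑ k ∈ univ.filter (fun k => k ∈ z), w k * bit (pt z k) =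
        ∑ k ∈ univ.filter (fun k => k ∈ z), w k * bit (neg k) + ∑ k ∈ z, |w k| := by
      have h2 : univ.filter (fun k => k ∈ z) = z := by ext k; simp
      rw [h2, ← Finset.sum_add_distrib]
      refine Finset.sum_congr rfl fun k hk => ?_
      simp only [pt, neg, bit, hk, decide_true, Bool.xor_true]
      by_cases h3 : w k < 0
      · simp [h3, abs_of_neg h3]
      · simp [h3, abs_of_nonneg (not_lt.1 h3)]
    have h2 : ∑ k ∈ univ.filter (fun k => k ∉ z), w k * bit (pt z k) =
        ∑ k ∈ univ.filter (fun k => k ∉ z), w k * bit (neg k) := by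
      refine Finset.sum_congr rfl fun k hk => ?_
      have hk' := (mem_filter.1 hk).2
      simp only [pt, hk', decide_false, Bool.xor_false]
    rw [h1, h2]
    ring
  have hptinj : ∀ t : Fin M → Bool, pt (univ.filter fun k => xor (neg k) (t k) = true) = t := by
    intro t
    funext k
    simp only [pt, mem_filter, mem_univ, true_and]
    cases neg k <;> cases t k <;> simp
  let φ : Finset (Fin M) → Fin n → Bool := fun z => Q.emb (pt z)
  let S : Finset (Finset (Fin M)) := univ.filter fun z => pt z ∈ T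
  have hSc : T.card ≤ S.card := by
    have h1 : T ⊆ S.image pt := by
      intro t ht
      refine mem_image.2 ⟨_, ?_, hptinj t⟩
      rw [mem_filter, hptinj]
      exact ⟨mem_univ _, ht⟩
    exact (card_le_card h1).trans card_image_le
  have hφ : SMap φ := by
    intro i
    rcases hb : Q.blk i with _ | m
    · left
      exact ⟨Q.base i, fun z => BCube.emb_none hb _⟩
    · right
      refine ⟨m, xor (Q.base i) (neg m), fun z => ?_⟩
      change Q.emb (pt z) i = _
      rw [BCube.emb_some hb, Bool.xor_assoc]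
  have hS : ∀ z ∈ S, f (φ z) = true ∧ ∀ y, y ⊂ z → ¬ f (φ y) = true := by
    intro z hz
    have h1 := hT _ (mem_filter.1 hz).2
    refine ⟨h1.1, fun y hy hacc => ?_⟩
    have h2 := hrej _ hacc
    rw [← h1.2, BCube.wsum_emb, BCube.wsum_emb] at h2
    have h3 := hpt z
    have h4 := hpt y
    change Q.bw (fun _ => 1) + wsum w (pt z) ≤ Q.bw (fun _ => 1) + wsum w (pt y) at h2
    rw [h3, h4] at h2
    have h5 : ∑ k ∈ y, |w k| < ∑ k ∈ z, |w k| := by
      obtain ⟨j, hj, hjy⟩ := Finset.exists_of_ssubset hy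
      refine Finset.sum_lt_sum_of_subset hy.1 hj hjy (abs_pos.2 (hw j)) fun k _ _ => abs_nonneg _
    omega
  set μ := max (X + 1) (Nat.clog 2 (M + 1)) with hμ
  have hμ1 : 1 ≤ μ := (Nat.le_add_left _ _).trans (le_max_left _ _)
  have hMμ : M + 1 ≤ 2 ^ μ :=
    (Nat.le_pow_clog (by omega) _).trans (Nat.pow_le_pow_right (by omega) (le_max_right _ _))
  have hlamμ : 2 ^ X ≤ 2 ^ μ :=
    Nat.pow_le_pow_right (by omega) ((Nat.le_succ _).trans (le_max_left _ _))
  have hmain := cube_dense (p := p) d f hf φ hφ S hS μ hμ1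
    (hcard.trans (Nat.mul_le_mul hlamμ hSc)) hMμ hlamμ
  have hmain2 : M ≤ (c * μ) ^ (2 * d + 1) := hmain.trans (hc μ hμ1)
  have hμL : μ ≤ (L + 1) * (X + 1) := by
    by_contra hlt
    push Not at hlt
    have h1 : L ≤ μ := by
      have : L + 1 ≤ (L + 1) * (X + 1) := Nat.le_mul_of_pos_right _ (by omega)
      omega
    have h2 : X + 1 < μ := by
      have : X + 1 ≤ (L + 1) * (X + 1) := Nat.le_mul_of_pos_left _ (by omega)
      omega
    have h3 : μ = Nat.clog 2 (M + 1) := by
      rcases max_choice (X + 1) (Nat.clog 2 (M + 1)) with h4 | h4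
      · rw [← hμ] at h4; omega
      · rw [← hμ] at h4; exact h4
    have h4 : 2 ^ (μ - 1) < M + 1 := by
      rw [h3]
      refine Nat.pow_pred_clog_lt_self (by omega) ?_
      have : 2 ≤ μ := by omega
      by_contra h5
      have : M + 1 ≤ 1 := by omega
      rw [Nat.clog_of_right_le_one this] at h3
      omega
    have h5 := hL μ h1
    omega
  have h6 : 1 ≤ c * (L + 1) * 2 * X :=
    Nat.mul_pos (Nat.mul_pos (Nat.mul_pos hc1 (by omega)) (by omega)) hX
  unfold pb
  calc M ≤ (c * μ) ^ (2 * d + 1) := hmain2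
    _ ≤ (c * ((L + 1) * (X + 1))) ^ (2 * d + 1) :=
      Nat.pow_le_pow_left (Nat.mul_le_mul_left _ hμL) _
    _ ≤ (c * (L + 1) * 2 * X) ^ (2 * d + 1) := by
      refine Nat.pow_le_pow_left ?_ _
      calc c * ((L + 1) * (X + 1)) = (c * (L + 1)) * (X + 1) := by ring
        _ ≤ (c * (L + 1)) * (2 * X) := Nat.mul_le_mul_left _ (by omega)
        _ = c * (L + 1) * 2 * X := by ring
    _ ≤ ((c * (L + 1) * 2 + (2 * d + 1)) * X) ^ (2 * d + 1) :=
      Nat.pow_le_pow_left (Nat.mul_le_mul_right _ (by omega)) _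
    _ ≤ ((c * (L + 1) * 2 + (2 * d + 1)) * X) ^ (c * (L + 1) * 2 + (2 * d + 1)) :=
      Nat.pow_le_pow_right (Nat.mul_pos (by omega) hX) (by omega)

end Pool.Agent.MQX
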