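import Pool.Agent.MQX.Defs
import Pool.Agent.MQX.Cube
import Pool.Agent.MXC.CellMod

/-!
# Mixed clauses and quadratic clauses together: one function
-/

set_option autoImplicit false

namespace Pool.Agent.MQX

open Finset Pool.Agent.RS Pool.Agent.MXC Pool.Agent.QuadSys Pool.Agent.Helper21.LinSys

theorem quadLocal_succ {m w n : ℕ} {g : (Fin n → Bool) → Bool} (h : QuadLocal m w n g) :
    QuadLocal m (w + 1) n g := by
  obtain ⟨c, A, h⟩ := h
  refine ⟨Fin.snoc c 0, fun f => A fun s => f s.castSucc, fun x => ?_⟩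
  rw [h x]
  congr 1
  funext s
  simp only [Fin.snoc_castSucc]

theorem andOfTests_succ {m w D n : ℕ} {g : (Fin n → Bool) → Bool} (h : AndOfTests m w D n g) :
    AndOfTests m (w + 1) D n g := by
  obtain ⟨C, h1, h2⟩ := h
  exact ⟨C, fun g hg => (h1 g hg).imp quadLocal_succ id, h2⟩

/-- a fibre of a group of linear forms is an `AND` of tests -/
theorem andOfTests_fibre {m' r w D n : ℕ} (hr : 0 < r)
    (Γ : AddSubgroup (Fin n → ZMod m')) (y : Fin n → Bool)
    (R : (Fin n → Bool) → Bool) (hR : ∀ x, R x = true ↔ ∀ L ∈ Γ, ev L x = ev L y) :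
    AndOfTests (m' * r) (w + 1) D n R := by
  classical
  refine ⟨{g | ∃ L ∈ Γ, g = fun x => decide (ev L x = ev L y)}, ?_, ?_⟩
  · rintro g ⟨L, _, rfl⟩
    left
    refine ⟨fun _ i j => if i = j then up m' r (L i) else 0,
      fun f => decide (f 0 = up m' r (ev L y)), fun x => ?_⟩
    have key : (∑ i : Fin n, ∑ j : Fin n, if x i = true ∧ x j = true then
        (if i = j then up m' r (L i) else 0) else 0) = up m' r (ev L x) := by
      unfold ev
      rw [map_sum]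
      refine Finset.sum_congr rfl fun i _ => ?_
      rw [Finset.sum_eq_single i]
      · by_cases h : x i = true
        · rw [if_pos ⟨h, h⟩, if_pos rfl, if_pos h]
        · rw [if_neg (fun h' => h h'.1), if_neg h, map_zero]
      · intro j _ hj
        rw [if_neg (Ne.symm hj)]
        exact ite_self _
      · intro h
        exact absurd (Finset.mem_univ i) h
    show decide (ev L x = ev L y) = decide ((∑ i : Fin n, ∑ j : Fin n,
      if x i = true ∧ x j = true then (if i = j then up m' r (L i) else 0) else 0) =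
        up m' r (ev L y))
    rw [key]
    refine decide_eq_decide.2 ⟨fun h => by rw [h], fun h => up_injective m' r hr h⟩
  · intro x
    rw [hR x]
    constructor
    · rintro h g ⟨L, hL, rfl⟩
      exact decide_eq_true (h L hL)
    · intro h L hL
      exact of_decide_eq_true (h _ ⟨L, hL, rfl⟩)

theorem mqx_one (p : ℕ) [Fact p.Prime] (m w w₂ D d : ℕ) (hm : 2 ≤ m) : ∃ K : ℕ,
    ∀ (n s N κ X h : ℕ) (M₀ : (Fin n → Bool) → Bool) (R : Fin κ → (Fin n → Bool) → Bool)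
      (c : Fin κ → Bool) (T : Finset (Fin n → Bool)),
      1 ≤ X → s ≤ 2 ^ X → N ≤ 2 ^ X → n + 1 ≤ 2 ^ X → κ ≤ X → MixedAnd p m w d n s N M₀ →
      (∀ j, AndOfTests m w₂ D n (R j)) →
      (∀ x, M₀ x = true → (∀ j, R j x = c j) → h ≤ ones x) →
      (∀ x ∈ T, M₀ x = true ∧ (∀ j, R j x = c j) ∧ ones x = h) →
      2 ^ n ≤ 2 ^ X * T.card → n ≤ pb K X := by
  classical
  have hB := st_ApxBasic p
  obtain ⟨m', w', d₁, K₁, hm'0, hcop, hdvd, hd₁, hconv⟩ := mixed_conv p hB (st_ApxMore' p)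
    (st_PPart p hB (st_ApxGate p) (st_ApxMore' p)) m w d hm
  have hm' : NeZero m' := ⟨by omega⟩
  have hmne : NeZero m := ⟨by omega⟩
  obtain ⟨r, hr⟩ := hdvd
  have hr0 : 0 < r := by
    rcases Nat.eq_zero_or_pos r with h0 | h0
    · rw [h0, mul_zero] at hr
      omega
    · exact h0
  obtain ⟨d', KA, hall⟩ := st_All' p m' w' d₁ hcop hd₁
  obtain ⟨K₀, hcube⟩ := mqx_cube p d'
  obtain ⟨C₀, hdec⟩ : ∃ C, DecompProp (Mixed m (2 * m) (w₂ + 1) D) C := by
    have hdvd : m ∣ 2 * m := Dvd.intro_left 2 rfl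
    have : NeZero (2 * m) := ⟨by omega⟩
    obtain ⟨C₁, h1⟩ := exists_pathProp m (2 * m) dvd_rfl (w₂ + 1)
    obtain ⟨C₂, h2⟩ := exists_pairProp m (2 * m) hdvd
    obtain ⟨C₃, h3⟩ := exists_eqProp m (2 * m) hdvd D
    exact mixed_decomp m (2 * m) (w₂ + 1) D h1 h2 h3
  set K₂ := K₁ + 1 with hK₂
  set a := (K₂ + 1 + 1) * (KA + 1) with ha
  set b := 4 + a + 2 with hb
  set e := (b + 1) * (C₀ + 1) + a + 2 with he
  set g := (e + 1) * (K₀ + 1) + b + 2 + 2 + 2 with hg
  refine ⟨(g + 1) * (C₀ + 1), ?_⟩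
  intro n s N κ X h M₀ R c T hX hs hN hn hκ hM hR hrej hT hTd
  obtain ⟨L, Φ, hΦa, hΦt⟩ := hconv n s N X M₀ hX hs hn hM
  have hX2 : 1 ≤ K₂ * X := Nat.mul_pos (by omega) hX
  have hXK : X ≤ K₂ * X := Nat.le_mul_of_pos_left _ (by omega)
  have hK1X : K₁ * X ≤ K₂ * X := Nat.mul_le_mul_right _ (by omega)
  obtain ⟨Γ, y, B, hst, hcell⟩ := hall (Fin n) (K₂ * X) N T L Φ hX2
    (hN.trans (Nat.pow_le_pow_right (by norm_num) hXK))
    (fun c v => hB.mono _ _ _ _ _ _ le_rfl (Nat.pow_le_pow_right (by norm_num) hK1X) (hΦa c v))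
    (fun x hx j => (hΦt x).1 (hT x hx).1 j) (by
      rw [Fintype.card_fin]
      exact hTd.trans (Nat.mul_le_mul_right _ (Nat.pow_le_pow_right (by norm_num) hXK)))
  set X₂ := pb KA (K₂ * X) with hX₂
  have hX₂1 : 1 ≤ X₂ := one_le_pb hX2
  set T₁ := T ∩ cell Γ y B with hT₁
  have hT₁d : 2 ^ n ≤ 2 ^ X₂ * T₁.card := by
    have := hst.dense
    rwa [Fintype.card_fin] at this
  -- the conditions
  let R₀ : (Fin n → Bool) → Bool := fun x => decide (∀ L ∈ Γ, ev L x = ev L y)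
  have hR₀ : AndOfTests m (w₂ + 1) D n R₀ := by
    subst hr
    exact andOfTests_fibre hr0 Γ y R₀ fun x => by simp only [R₀, decide_eq_true_eq]
  let P : Fin (κ + 1) → (Fin n → Bool) → Prop :=
    Fin.cons (fun x => R₀ x = true) fun j x => R j x = true
  have hP : ∀ i, Mixed m (2 * m) (w₂ + 1) D n (P i) := by
    intro i
    refine Fin.cases ?_ (fun j => ?_) i
    · exact hR₀.mixed (2 * m)
    · exact (andOfTests_succ (hR j)).mixed (2 * m)
  set u := κ + 1 + X₂ + 1 with hu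
  set X₃ := pb C₀ u + X₂ with hX₃
  set M := pb K₀ X₃ + 1 with hMdef
  by_contra hcon
  push Not at hcon
  have hmulX : ∀ q : ℕ, q * X ≤ pb (q + 1) X := fun q => mul_le_pb q hX
  have hX₂a : X₂ ≤ pb a X :=
    (pb_mono le_rfl hX2 (mul_le_pb K₂ hX)).trans (pb_pb _ _ hX)
  have hub : u ≤ pb b X := by
    have h1 : 3 * X ≤ pb 4 X := hmulX 3
    have h2 : pb 4 X + pb a X ≤ pb b X := pb_add_pb _ _ hX
    omega
  have hX₃e : X₃ ≤ pb e X := by
    have h1 : pb C₀ u ≤ pb ((b + 1) * (C₀ + 1)) X :=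
      (pb_mono le_rfl (by omega) hub).trans (pb_pb _ _ hX)
    have h2 : pb ((b + 1) * (C₀ + 1)) X + pb a X ≤ pb e X := pb_add_pb _ _ hX
    omega
  have hX₃1 : 1 ≤ X₃ := by omega
  have hMg : M + (κ + 1) + X₂ + 1 ≤ pb g X := by
    have h1 : pb K₀ X₃ ≤ pb ((e + 1) * (K₀ + 1)) X :=
      (pb_mono le_rfl hX₃1 hX₃e).trans (pb_pb _ _ hX)
    have h2 : pb ((e + 1) * (K₀ + 1)) X + pb b X ≤ pb ((e + 1) * (K₀ + 1) + b + 2) X :=
      pb_add_pb _ _ hX
    have h3 : 1 * X ≤ pb 2 X := hmulX 1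
    have h4 : pb ((e + 1) * (K₀ + 1) + b + 2) X + pb 2 X ≤ pb g X := pb_add_pb _ _ hX
    omega
  have hsize : pb C₀ (M + (κ + 1) + X₂ + 1) ≤ n :=
    ((pb_mono le_rfl (by omega) hMg).trans (pb_pb _ _ hX)).trans hcon.le
  obtain ⟨Bd, M', Q, hBd, hMM', hpw, hconst, hdens⟩ := hdec M P hP T₁ hT₁d hsize
  set T' : Finset (Fin M' → Bool) := univ.filter fun t => Q.emb t ∈ T₁ with hT'
  have hT'0 : 0 < T'.card := by
    rcases Nat.eq_zero_or_pos T'.card with h0 | h0
    · rw [h0, mul_zero] at hdens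
      have : 0 < 2 ^ M' := by positivity
      omega
    · exact h0
  obtain ⟨t₀, ht₀⟩ := Finset.card_pos.1 hT'0
  have ht₀' := (mem_filter.1 ht₀).2
  have ht₀T : Q.emb t₀ ∈ T := (mem_inter.1 ht₀').1
  have ht₀c : Q.emb t₀ ∈ cell Γ y B := (mem_inter.1 ht₀').2
  have hmemcell : ∀ x, x ∈ cell Γ y B ↔ (∀ L ∈ Γ, ev L x = ev L y) ∧ B x = true := by
    intro x
    unfold cell tr
    rw [mem_filter, mem_fibz]
    constructor
    · rintro ⟨⟨_, h1⟩, h2⟩
      exact ⟨h1, h2⟩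
    · rintro ⟨h1, h2⟩
      exact ⟨⟨fun i hi => absurd hi (by simp), h1⟩, h2⟩
  have hfib : ∀ t, ∀ L ∈ Γ, ev L (Q.emb t) = ev L y := by
    have h1 := hconst 0
    have h2 : ∀ t, P 0 (Q.emb t) ↔ ∀ L ∈ Γ, ev L (Q.emb t) = ev L y := by
      intro t
      show decide (∀ L ∈ Γ, ev L (Q.emb t) = ev L y) = true ↔ _
      rw [decide_eq_true_eq]
    rcases h1 with h1 | h1
    · exact fun t => (h2 t).1 (h1 t)
    · exact absurd ((h2 t₀).2 ((hmemcell _).1 ht₀c).1) (h1 t₀)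
  have hRc : ∀ t j, R j (Q.emb t) = c j := by
    intro t j
    have h1 := hconst j.succ
    have h2 : ∀ t, P j.succ (Q.emb t) ↔ R j (Q.emb t) = true := fun t => Iff.rfl
    have h3 := (hT _ ht₀T).2.1 j
    rcases h1 with h1 | h1
    · rw [← h3, (h2 t).1 (h1 t), (h2 t₀).1 (h1 t₀)]
    · have h4 : R j (Q.emb t) = false := by
        have := h1 t
        rw [h2 t, Bool.not_eq_true] at this
        exact this
      have h5 : R j (Q.emb t₀) = false := by
        have := h1 t₀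
        rw [h2 t₀, Bool.not_eq_true] at this
        exact this
      rw [← h3, h4, h5]
  have hBdX : Bd ≤ X₃ := by
    have h1 : Bd ≤ pb C₀ u := hBd
    omega
  have hfin := hcube X₃ B Q (h : ℤ) hX₃1
    (hB.mono _ _ _ _ _ _ le_rfl (Nat.pow_le_pow_right (by norm_num) (by omega)) hst.apx) hpw
    (by
      intro t ht
      rw [wsum_one]
      have h1 : M₀ (Q.emb t) = true :=
        (hΦt _).2 fun j => hcell _ ((hmemcell _).2 ⟨hfib t, ht⟩) j
      have h2 : h ≤ ones (Q.emb t) := hrej _ h1 (hRc t)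
      unfold ones at h2
      exact_mod_cast h2) T' (by
      intro t ht
      have h1 := mem_inter.1 (mem_filter.1 ht).2
      refine ⟨((hmemcell _).1 h1.2).2, ?_⟩
      rw [wsum_one]
      have h2 : ones (Q.emb t) = h := (hT _ h1.1).2.2
      unfold ones at h2
      exact_mod_cast h2)
    (hdens.trans (Nat.mul_le_mul_right _ (Nat.pow_le_pow_right (by norm_num) hBdX)))
  omega

end Pool.Agent.MQX
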