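import Pool.Agent.MXC.MainAvg
import Pool.Agent.QuadSys.Final

/-!
# Mixed clauses and quadratic clauses together: definitions
-/

set_option autoImplicit false

namespace Pool.Agent.MQX

open Finset Pool.Agent.RS Pool.Agent.MXC Pool.Agent.QuadSys

/-- `Q` is the conjunction of an `AND` of `s` mixed clauses, of an `AND` of any number of tests
(functions of `w` quadratic sums modulo `m`, equations of degree at most `D` modulo `m`), and of
the negation of such an `AND` of tests. -/
def Piece (p m w D d n s : ℕ) (Q : (Fin n → Bool) → Bool) : Prop :=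
  ∃ M₀ R R' : (Fin n → Bool) → Bool, MixedAnd p m w d n s s M₀ ∧ AndOfTests m w D n R ∧
    AndOfTests m w D n R' ∧ ∀ x, Q x = true ↔ M₀ x = true ∧ R x = true ∧ R' x = false

/-- `Q` and its negation are both an `OR` of `s` pieces. -/
def TwoSidedQ (p m w D d n s : ℕ) (Q : (Fin n → Bool) → Bool) : Prop :=
  ∀ v : Bool, ∃ A : Fin s → (Fin n → Bool) → Bool, (∀ e, Piece p m w D d n s (A e)) ∧
    ∀ x, Q x = v ↔ ∃ e, A e x = true

/-- nested special gates -/
def NestedQ (p m w D d n s k : ℕ) (lev : Fin k → ℕ) (P : Fin k → (Fin n → Bool) → Bool) : Prop :=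
  ∀ (j : Fin k) (b : Fin k → Bool), ∃ Q, TwoSidedQ p m w D d n s Q ∧
    ∀ x, (∀ i, lev i < lev j → P i x = b i) → P j x = Q x

/-- the values of the `k + k` tests -/
def cst (k : ℕ) : Fin (k + k) → Bool := Fin.append (fun _ => true) (fun _ => false)

end Pool.Agent.MQX
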