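import Pool.Agent.MQX.Defs

/-!
# Mixed clauses and quadratic clauses: guessing the values of the special gates
-/

set_option autoImplicit false

namespace Pool.Agent.MQX

open Finset Pool.Agent.RS Pool.Agent.MXC Pool.Agent.QuadSys

/-- The values of the special gates and the pieces which hold are guessed. -/
theorem mqx_guess {p m w D d n k s t : ℕ} (lev : Fin t → Fin k → ℕ)
    (P : Fin t → Fin k → (Fin n → Bool) → Bool)
    (C : Fin t → (Fin k → Bool) → Circuit (Fin n) s)
    (hS : ∀ i, NestedQ p m w D d n s k (lev i) (P i))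
    (hC : ∀ i b, (C i b).level (C i b).out + 1 ≤ d) :
    ∃ (M₀ : Fin t × (Fin k → Bool) × (Fin k → Fin s) → (Fin n → Bool) → Bool)
      (R : Fin t × (Fin k → Bool) × (Fin k → Fin s) → Fin (k + k) → (Fin n → Bool) → Bool),
      (∀ q, MixedAnd p m (w + 1) d n s (k * s + 1) (M₀ q)) ∧
      (∀ q j, AndOfTests m w D n (R q j)) ∧
      ∀ x, (∃ q, M₀ q x = true ∧ ∀ j, R q j x = cst k j) ↔
        ∃ i, (C i fun j => P i j x).Accepts p x := by
  classical
  choose Q hQ hPQ using hS
  choose A hA hAQ using hQ
  choose M T T' hM hT hT' hAM using hA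
  choose Cc cc Fc hCl hAF using hM
  let Gp : Fin t × (Fin k → Bool) × (Fin k → Fin s) → (Fin n → Bool) → Prop := fun q x =>
    (C q.1 q.2.1).Accepts p x ∧ ∀ j : Fin k, M q.1 j q.2.1 (q.2.1 j) (q.2.2 j) x = true
  let Rr : Fin t × (Fin k → Bool) × (Fin k → Fin s) → Fin (k + k) → (Fin n → Bool) → Bool :=
    fun q => Fin.append (fun j => T q.1 j q.2.1 (q.2.1 j) (q.2.2 j))
      (fun j => T' q.1 j q.2.1 (q.2.1 j) (q.2.2 j))
  have hRr : ∀ q x, (∀ j, Rr q j x = cst k j) ↔ ∀ j : Fin k,
      T q.1 j q.2.1 (q.2.1 j) (q.2.2 j) x = true ∧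
        T' q.1 j q.2.1 (q.2.1 j) (q.2.2 j) x = false := by
    intro q x
    constructor
    · intro h j
      refine ⟨?_, ?_⟩
      · have h1 := h (Fin.castAdd k j)
        simpa only [Rr, cst, Fin.append_left] using h1
      · have h1 := h (Fin.natAdd k j)
        simpa only [Rr, cst, Fin.append_right] using h1
    · intro h j
      refine Fin.addCases (fun j => ?_) (fun j => ?_) j
      · simpa only [Rr, cst, Fin.append_left] using (h j).1
      · simpa only [Rr, cst, Fin.append_right] using (h j).2
  refine ⟨fun q x => decide (Gp q x), Rr, fun q => ?_, fun q j => ?_, fun x => ?_⟩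
  · refine mixedAnd_of_fintype (J := Option (Fin k × Fin s)) (by simp) _
      (fun jc => match jc with
        | none => fun _ => C q.1 q.2.1
        | some (j, c) => Fin.cons (C q.1 q.2.1) (Cc q.1 j q.2.1 (q.2.1 j) (q.2.2 j) c))
      (fun jc => match jc with
        | none => fun _ _ => 0
        | some (j, c) => Fin.cons (fun _ => 0) (cc q.1 j q.2.1 (q.2.1 j) (q.2.2 j) c))
      (fun jc => match jc with
        | none => fun a _ => a 0
        | some (j, c) => fun a v => Fc q.1 j q.2.1 (q.2.1 j) (q.2.2 j) c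
            (fun i => a i.succ) (fun i => v i.succ)) ?_ ?_
    · rintro (_ | ⟨j, c⟩) a
      · exact hC _ _
      · refine Fin.cases ?_ (fun a => ?_) a
        · exact hC _ _
        · exact hCl _ _ _ _ _ _ _
    · intro x
      rw [decide_eq_true_eq]
      constructor
      · rintro ⟨h1, h2⟩ (_ | ⟨j, c⟩)
        · exact h1
        · exact (hAF _ _ _ _ _ x).1 (h2 j) c
      · intro h
        exact ⟨h none, fun j => (hAF _ _ _ _ _ x).2 fun c => h (some (j, c))⟩
  · refine Fin.addCases (fun j => ?_) (fun j => ?_) j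
    · simp only [Rr, Fin.append_left]
      exact hT _ _ _ _ _
    · simp only [Rr, Fin.append_right]
      exact hT' _ _ _ _ _
  · constructor
    · rintro ⟨⟨i, b, e⟩, hq, hR⟩
      rw [decide_eq_true_eq] at hq
      rw [hRr] at hR
      obtain ⟨h1, h2⟩ := hq
      have hP : ∀ (r : ℕ) (j : Fin k), lev i j < r → P i j x = b j := by
        intro r
        induction r with
        | zero => intro j hj; omega
        | succ r ih =>
          intro j hj
          rw [hPQ i j b x fun i' hi' => ih i' (by omega), hAQ i j b (b j) x]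
          exact ⟨e j, (hAM i j b (b j) (e j) x).2 ⟨h2 j, (hR j).1, (hR j).2⟩⟩
      refine ⟨i, ?_⟩
      have h4 : (fun j => P i j x) = b := funext fun j => hP (lev i j + 1) j (by omega)
      rw [h4]
      exact h1
    · rintro ⟨i, hi⟩
      have h3 : ∀ j, ∃ e, A i j (fun j => P i j x) (P i j x) e x = true := fun j =>
        (hAQ i j (fun j => P i j x) (P i j x) x).1
          (hPQ i j (fun j => P i j x) x fun _ _ => rfl).symm
      choose e he using h3
      have h5 := fun j => (hAM i j (fun j => P i j x) (P i j x) (e j) x).1 (he j)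
      refine ⟨(i, fun j => P i j x, e), ?_, ?_⟩
      · rw [decide_eq_true_eq]
        exact ⟨hi, fun j => (h5 j).1⟩
      · rw [hRr]
        exact fun j => ⟨(h5 j).2.1, (h5 j).2.2⟩

end Pool.Agent.MQX
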