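import Pool.Agent.MQX.Core
import Pool.Agent.MQX.Guess

/-!
# Mixed clauses and quadratic clauses together: the main theorem
-/

set_option autoImplicit false

namespace Pool.Agent.MQX

open Finset Pool.Agent.RS Pool.Agent.MXC Pool.Agent.QuadSys Pool.Agent.Helper21.LinSys

theorem mqx_main (p : ℕ) [Fact p.Prime] (m w D d : ℕ) (hm : 2 ≤ m) :
    ∃ K : ℕ, ∀ (n k s t r : ℕ) (lev : Fin t → Fin k → ℕ)
      (P : Fin t → Fin k → (Fin n → Bool) → Bool)
      (C : Fin t → (Fin k → Bool) → Circuit (Fin n) s) (A : Finset (Fin n → Bool)),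
      (∀ i, NestedQ p m w D d n s k (lev i) (P i)) →
      (∀ i b, (C i b).level (C i b).out + 1 ≤ d) →
      (∀ i x, (C i fun j => P i j x).Accepts p x →
        n ≤ 2 * (univ.filter fun v => x v = true).card) →
      (∀ x ∈ A, (univ.filter fun v => x v = true).card = (n + 1) / 2 ∧
        ∃ i, (C i fun j => P i j x).Accepts p x) →
      n.choose ((n + 1) / 2) ≤ r * A.card →
      (n : ℝ) ≤ (K * (k + 1) * Real.log (s + t + r + n)) ^ K := by
  classical
  obtain ⟨K, hK⟩ := mqx_one p m (w + 1) w D d hm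
  set K' := (3 + 1 + 1) * (K + 1) with hK'
  refine ⟨12 * K' + 1, ?_⟩
  intro n k s t r lev P C A hS hlevel hrej hA hacc
  have hch : 0 < n.choose ((n + 1) / 2) := Nat.choose_pos (by omega)
  have hr : 1 ≤ r := by
    rcases Nat.eq_zero_or_pos r with h0 | h0
    · rw [h0, zero_mul] at hacc
      omega
    · exact h0
  have hA0 : A.Nonempty := by
    rw [Finset.nonempty_iff_ne_empty]
    intro h0
    rw [h0, card_empty, mul_zero] at hacc
    omega
  obtain ⟨x0, hx0⟩ := hA0
  obtain ⟨-, i0, -⟩ := hA x0 hx0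
  have ht : 1 ≤ t := by have := i0.2; omega
  have hs : 1 ≤ s := by have := (C i0 fun _ => true).out.2; omega
  obtain ⟨M₀, R, hM, hR, hGC⟩ := mqx_guess lev P C hS hlevel
  set L := Nat.clog 2 (s + t + r + n) with hL
  have h2L : s + t + r + n ≤ 2 ^ L := Nat.le_pow_clog (by norm_num) _
  set X := (k + 2) * (L + 1) with hX
  have hXe : X = L * k + k + 2 * L + 2 := by rw [hX]; ring
  have hX1 : 1 ≤ X := by omega
  have hk2 : k + 1 ≤ 2 ^ k := Nat.lt_two_pow_self
  have hLX : 2 ^ L ≤ 2 ^ X := Nat.pow_le_pow_right (by norm_num) (by omega)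
  set h := (n + 1) / 2 with hh
  -- the popular guess
  have hslice : (univ.filter fun x : Fin n → Bool => ones x = h).card = n.choose h :=
    card_slice n h
  have hmid := two_pow_le_middle n
  have hIX : Fintype.card (Fin t × (Fin k → Bool) × (Fin k → Fin s)) ≤ 2 ^ X := by
    rw [card_guess]
    calc t * (2 ^ k * s ^ k) ≤ 2 ^ L * (2 ^ k * (2 ^ L) ^ k) :=
          Nat.mul_le_mul (by omega)
            (Nat.mul_le_mul_left _ (Nat.pow_le_pow_left (by omega) _))
      _ = 2 ^ (L + (k + L * k)) := by rw [← pow_mul, ← pow_add, ← pow_add]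
      _ ≤ 2 ^ X := Nat.pow_le_pow_right (by norm_num) (by rw [hXe]; omega)
  set T : Fin t × (Fin k → Bool) × (Fin k → Fin s) → Finset (Fin n → Bool) := fun q => univ.filter fun x : Fin n → Bool =>
    ones x = h ∧ M₀ q x = true ∧ ∀ j, R q j x = cst k j with hT
  have hAT : A.card ≤ ∑ q, (T q).card := by
    refine (Finset.card_le_card (t := Finset.univ.biUnion T) ?_).trans Finset.card_biUnion_le
    intro x hx
    obtain ⟨h1, h2⟩ := hA x hx
    obtain ⟨q, hq⟩ := (hGC x).2 h2
    exact Finset.mem_biUnion.2 ⟨q, mem_univ _, mem_filter.2 ⟨mem_univ _, h1, hq⟩⟩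
  obtain ⟨q0, hq0⟩ : ∃ q, A.card ≤ 2 ^ X * (T q).card := by
    by_contra hcon
    push Not at hcon
    have hA1 : 0 < A.card := Finset.card_pos.2 ⟨x0, hx0⟩
    have hne : (univ : Finset (Fin t × (Fin k → Bool) × (Fin k → Fin s))).Nonempty := by
      rw [Finset.univ_nonempty_iff]
      by_contra hemp
      rw [not_nonempty_iff] at hemp
      rw [Finset.univ_eq_empty, Finset.sum_empty] at hAT
      omega
    have h4 : ∑ q, (2 ^ X * (T q).card) <
        ∑ _q : Fin t × (Fin k → Bool) × (Fin k → Fin s), A.card :=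
      Finset.sum_lt_sum_of_nonempty hne fun q _ => hcon q
    rw [← Finset.mul_sum, Finset.sum_const, Finset.card_univ, smul_eq_mul] at h4
    have h5 : Fintype.card (Fin t × (Fin k → Bool) × (Fin k → Fin s)) * A.card ≤ 2 ^ X * ∑ q, (T q).card := Nat.mul_le_mul hIX hAT
    omega
  have hTd : 2 ^ n ≤ 2 ^ (3 * X) * (T q0).card := by
    calc 2 ^ n ≤ (n + 1) * n.choose h := hmid
      _ ≤ 2 ^ X * (2 ^ X * (2 ^ X * (T q0).card)) := by
          refine Nat.mul_le_mul (by omega) (hacc.trans ?_)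
          exact Nat.mul_le_mul (by omega) hq0
      _ = 2 ^ (3 * X) * (T q0).card := by
          rw [show 3 * X = X + X + X by ring, pow_add, pow_add]
          ring
  have hX3 : X ≤ 3 * X := by omega
  have hp3 : 2 ^ X ≤ 2 ^ (3 * X) := Nat.pow_le_pow_right (by norm_num) hX3
  have hmain : n ≤ pb K (3 * X) := by
    refine hK n s (k * s + 1) (k + k) (3 * X) h (M₀ q0) (R q0) (cst k) (T q0) (by omega)
      (by omega) ?_ (by omega) (by omega) (hM q0) (hR q0) ?_ ?_ hTd
    · refine le_trans ?_ hp3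
      calc k * s + 1 ≤ (k + 1) * s := by nlinarith
        _ ≤ 2 ^ k * 2 ^ L := Nat.mul_le_mul hk2 (by omega)
        _ = 2 ^ (k + L) := (pow_add _ _ _).symm
        _ ≤ 2 ^ X := Nat.pow_le_pow_right (by norm_num) (by rw [hXe]; omega)
    · intro x h1 h2
      obtain ⟨i, hi⟩ := (hGC x).1 ⟨q0, h1, h2⟩
      have h3 : n ≤ 2 * ones x := hrej i x hi
      omega
    · intro x hx
      have h1 := (mem_filter.1 hx).2
      exact ⟨h1.2.1, h1.2.2, h1.1⟩
  have hmain' : n ≤ pb K' X :=
    hmain.trans ((pb_mono le_rfl (by omega) (mul_le_pb 3 hX1)).trans (pb_pb _ _ hX1))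
  have h1 := pb_le_log K' (k := k) (N := s + t + r + n) (by omega)
  refine le_trans (by exact_mod_cast hmain') (h1.trans (le_of_eq ?_))
  push_cast
  rfl

end Pool.Agent.MQX
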